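import Mathlib
import Pool.Agent.Y758.MM.Main0
import Pool.Agent.Y758.MM.NZM

/-!
# A proper morphism with Moishezon fibres which is not locally Moishezon

Negative answer to Q1. Let `C` be the curve `t² = 1 + v⁶` of genus two (a double covering of the
projective line), `S'` the pull-back to `C` of the blow-up of `ℂ²` at the origin and `X → S'` the
principal bundle with fibre `E = ℂ / (ℤ + ℤ i)` given by the cocycle `x t / v`. Then
`X → S' → ℂ²` is proper, the fibres over `s ≠ 0` are one or two copies of `E` and the fibre over the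
origin is `C × E`. A divisor of positive degree on the fibres `E` near `C × E` would make a positive
multiple of the class `t / v ∈ H¹(C, K_C)` vanish.
-/

open Topology Metric
open Pool.Agent.Y758.MM
open scoped Manifold ContDiff

namespace Pool.Agent.Results.MP_795b03_ag.MoishezonFibersNotLocally

/-- Negative answer to Q1: a nonsingular closed complex hypersurface `X` of a complex manifold `M`
of dimension four and a holomorphic map `g` to `ℂ²` whose restriction to `X` is proper, such that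
the parts of `X` over polydiscs around the origin are connected, all fibres are Moishezon, but `g`
is not Moishezon over any neighbourhood of the origin. -/
theorem result : ∃ (M : Type) (_ : TopologicalSpace M) (_ : T2Space M)
    (_ : SecondCountableTopology M) (_ : ChartedSpace (ℂ × ℂ × ℂ × ℂ) M)
    (_ : IsManifold 𝓘(ℂ, ℂ × ℂ × ℂ × ℂ) ω M) (X : Set M) (g : M → ℂ × ℂ),
    IsSmoothHypersurface (ℂ × ℂ × ℂ × ℂ) X ∧
    MDifferentiable 𝓘(ℂ, ℂ × ℂ × ℂ × ℂ) 𝓘(ℂ, ℂ × ℂ) g ∧
    (∀ K : Set (ℂ × ℂ), IsCompact K → IsCompact (X ∩ g ⁻¹' K)) ∧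
    (∀ ε : ℝ, 0 < ε → IsConnected (X ∩ g ⁻¹' ball (0 : ℂ × ℂ) ε)) ∧
    (∀ s : ℂ × ℂ, MoishezonOver (ℂ × ℂ × ℂ × ℂ) (fun _ : M => ()) (X ∩ g ⁻¹' {s})) ∧
    ∀ U : Set (ℂ × ℂ), IsOpen U → (0 : ℂ × ℂ) ∈ U →
      ¬ MoishezonOver (ℂ × ℂ × ℂ × ℂ) g (X ∩ g ⁻¹' U) :=
  main_of_NZM MM_NZM

end Pool.Agent.Results.MP_795b03_ag.MoishezonFibersNotLocally
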